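import Pool.Agent.BH.Main
import Pool.Agent.Helper13.TypeAMain

set_option autoImplicit false

/-!
# The Boone-Higman conjecture in its permutational form, highly transitive version
-/

namespace Pool.Agent.Results.MP_24fec0_al.HighlyTransitive

open Pool.Agent.Helper13

/-- **Theorem.** Every finitely presented group with decidable word problem embeds in a finitely
presented group `K` that acts faithfully and highly transitively on `ℕ`, contains all finitary
permutations of `ℕ`, and in which the pointwise stabilizer of every finite set is isomorphic to
`K`. -/
theorem result (n : ℕ) (rels : Finset (FreeGroup (Fin n)))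
    (hwp : ComputablePred (fun w : List (Fin n × Bool) =>
      PresentedGroup.mk (rels : Set (FreeGroup (Fin n))) (FreeGroup.mk w) = 1)) :
    EmbedsInHighlyTransitive (PresentedGroup (rels : Set (FreeGroup (Fin n)))) := by
  obtain ⟨G, X, _, _, hA, φ, hφ⟩ := BH.main (PresentedGroup.mk (rels : Set (FreeGroup (Fin n))))
    (PresentedGroup.mk_surjective _) hwp
  exact typeA_imp_highly hA φ hφ

end Pool.Agent.Results.MP_24fec0_al.HighlyTransitive
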