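import Pool.Agent.Helper13.TypeAMain

set_option autoImplicit false

/-!
# Oligomorphic embeddings and actions of type (A)

For every group `H`, the following are equivalent: `H` embeds in a finitely presented group with a
faithful action having finitely many orbits on pairs and finitely generated point stabilizers;
`H` embeds in a finitely presented group with a faithful oligomorphic action and finitely
generated stabilizers of finite sets; `H` embeds in a finitely presented highly transitive
group containing all finitary permutations, in which the pointwise stabilizers of finite sets are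
all isomorphic to the whole group.
-/

namespace Pool.Agent.Results.MP_24fec0_al.TypeAEquivalence

open Pool.Agent.Helper13 Equiv

lemma exists_enum {Ω : Type*} (F : Set Ω) (hF : F.Finite) :
    ∃ (n : ℕ) (z : Fin n → Ω), Function.Injective z ∧ Set.range z = F := by
  have := hF.fintype
  refine ⟨Fintype.card F, fun i => ((Fintype.equivFin F).symm i : Ω), ?_, ?_⟩
  · exact Subtype.val_injective.comp (Fintype.equivFin F).symm.injective
  · ext p
    constructor
    · rintro ⟨i, rfl⟩
      exact Subtype.property _
    · intro hp
      exact ⟨Fintype.equivFin F ⟨p, hp⟩, by simp⟩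

lemma highly_imp_oligo {H : Type*} [Group H] (h : EmbedsInHighlyTransitive H) :
    EmbedsInOligomorphic H := by
  classical
  obtain ⟨m, rels, φ, ρ, hφ, hρ, htr, -, hst⟩ := h
  refine ⟨m, rels, φ, ρ, hφ, hρ, ?_, ?_⟩
  · intro k
    -- the orbit of a tuple is determined by its equality pattern
    let pat : (Fin k → ℕ) → (Fin k → Fin k → Prop) := fun x i j => x i = x j
    have key : ∀ x x' : Fin k → ℕ, pat x = pat x' →
        {y : Fin k → ℕ | ∃ h : PresentedGroup (rels : Set (FreeGroup (Fin m))),
          y = fun i => ρ h (x i)} =
        {y : Fin k → ℕ | ∃ h : PresentedGroup (rels : Set (FreeGroup (Fin m))),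
          y = fun i => ρ h (x' i)} := by
      -- it suffices to find an element taking `x` to `x'`
      have move : ∀ x x' : Fin k → ℕ, pat x = pat x' →
          ∃ g : PresentedGroup (rels : Set (FreeGroup (Fin m))), ∀ i, ρ g (x i) = x' i := by
        intro x x' hpat
        have hpat' : ∀ i j, x i = x j ↔ x' i = x' j := fun i j => by
          have := congrFun (congrFun hpat i) j
          exact iff_of_eq this
        obtain ⟨n, z, hz, hzr⟩ := exists_enum (Set.range x) (Set.finite_range x)
        have hc : ∀ i, ∃ j, x j = z i := fun i => by
          have : z i ∈ Set.range x := hzr ▸ ⟨i, rfl⟩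
          exact this
        choose c hc using hc
        obtain ⟨g, hg⟩ := htr n z (fun i => x' (c i)) hz (by
          intro i j hij
          apply hz
          rw [← hc i, ← hc j]
          exact (hpat' _ _).2 hij)
        refine ⟨g, fun i => ?_⟩
        obtain ⟨j, hj⟩ : x i ∈ Set.range z := hzr ▸ ⟨i, rfl⟩
        rw [← hj, hg]
        apply (hpat' _ _).1
        rw [hc, hj]
      intro x x' hpat
      ext y
      constructor
      · rintro ⟨h, rfl⟩
        obtain ⟨g, hg⟩ := move x' x hpat.symm
        exact ⟨h * g, by ext i; rw [map_mul, Perm.mul_apply, hg]⟩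
      · rintro ⟨h, rfl⟩
        obtain ⟨g, hg⟩ := move x x' hpat
        exact ⟨h * g, by ext i; rw [map_mul, Perm.mul_apply, hg]⟩
    have hfin : Finite (Fin k → Fin k → Prop) := inferInstance
    let F : (Fin k → Fin k → Prop) → Set (Fin k → ℕ) := fun P =>
      if h : ∃ x, pat x = P then {y : Fin k → ℕ | ∃ g : PresentedGroup
        (rels : Set (FreeGroup (Fin m))), y = fun i => ρ g (h.choose i)} else ∅
    refine (Set.finite_range F).subset ?_
    rintro _ ⟨x, rfl⟩
    refine ⟨pat x, ?_⟩
    have h : ∃ x', pat x' = pat x := ⟨x, rfl⟩
    simp only [F, dif_pos h]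
    exact key _ _ h.choose_spec
  · intro F
    obtain ⟨e⟩ := hst F
    have hfg : Group.FG (PresentedGroup (rels : Set (FreeGroup (Fin m)))) := by
      have : Group.IsFinitelyPresented (PresentedGroup (rels : Set (FreeGroup (Fin m)))) :=
        inferInstance
      exact fg_of_fp _
    have := Group.fg_of_surjective (f := e.symm.toMonoidHom) e.symm.surjective
    exact (Group.fg_iff_subgroup_fg _).1 this

lemma oligo_imp_typeA {H : Type*} [Group H] (h : EmbedsInOligomorphic H) :
    EmbedsInTypeA H := by
  classical
  obtain ⟨m, rels, φ, ρ, hφ, hρ, horb, hst⟩ := h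
  let act : MulAction (PresentedGroup (rels : Set (FreeGroup (Fin m)))) ℕ := MulAction.compHom ℕ ρ
  have hact : ∀ (g : PresentedGroup (rels : Set (FreeGroup (Fin m)))) (n : ℕ), g • n = ρ g n :=
    fun _ _ => rfl
  refine ⟨PresentedGroup (rels : Set (FreeGroup (Fin m))), ℕ, inferInstance, act,
    ⟨inferInstance, ⟨?_⟩, ?_, ?_⟩, φ, hφ⟩
  · intro g g' hgg
    apply hρ
    ext n
    exact hgg n
  · -- finitely many orbits of pairs
    have h2 := horb 2
    let f : MulAction.orbitRel.Quotient (PresentedGroup (rels : Set (FreeGroup (Fin m)))) (ℕ × ℕ) →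
        Set.range (fun x : Fin 2 → ℕ => {y : Fin 2 → ℕ | ∃ h : PresentedGroup
          (rels : Set (FreeGroup (Fin m))), y = fun i => ρ h (x i)}) :=
      fun q => ⟨_, ⟨![q.out.1, q.out.2], rfl⟩⟩
    have := h2.to_subtype
    refine Finite.of_injective f ?_
    intro q q' hqq
    have h3 := congrArg Subtype.val hqq
    simp only [f] at h3
    have h4 : ![q.out.1, q.out.2] ∈ {y : Fin 2 → ℕ | ∃ h : PresentedGroup
          (rels : Set (FreeGroup (Fin m))), y = fun i => ρ h (![q'.out.1, q'.out.2] i)} := by
      rw [← h3]
      exact ⟨1, by ext i; simp⟩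
    obtain ⟨g, hg⟩ := h4
    have h5 : q.out = g • q'.out := by
      ext
      · have := congrFun hg 0
        simp only [Matrix.cons_val_zero] at this
        exact this
      · have := congrFun hg 1
        simp only [Matrix.cons_val_one] at this
        exact this
    rw [← Quotient.out_eq' q, ← Quotient.out_eq' q']
    apply Quotient.sound'
    rw [MulAction.orbitRel_apply, h5]
    exact ⟨g, rfl⟩
  · intro x
    have h1 := hst {x}
    have h2 : (⨅ a ∈ ({x} : Finset ℕ), MulAction.stabilizer (Perm ℕ) a).comap ρ =
        MulAction.stabilizer (PresentedGroup (rels : Set (FreeGroup (Fin m)))) x := by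
      ext g
      simp [Subgroup.mem_comap, MulAction.mem_stabilizer_iff, hact]
    rw [h2] at h1
    exact h1

/-- **Theorem.** For every group `H`, embedding in a group with an action of type (A), embedding in
a finitely presented oligomorphic group with finitely generated stabilizers, and embedding in a
finitely presented highly transitive group whose finite pointwise stabilizers are isomorphic to
the group, are equivalent. -/
theorem result (H : Type*) [Group H] :
    [EmbedsInTypeA H, EmbedsInOligomorphic H, EmbedsInHighlyTransitive H].TFAE := by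
  tfae_have 1 → 3 := by
    rintro ⟨G, X, _, _, hA, φ, hφ⟩
    exact typeA_imp_highly hA φ hφ
  tfae_have 3 → 2 := highly_imp_oligo
  tfae_have 2 → 1 := oligo_imp_typeA
  tfae_finish

end Pool.Agent.Results.MP_24fec0_al.TypeAEquivalence
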